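import Mathlib

/-!
# A big polynomial ring which is not a polynomial algebra over its bounded-denominator subring

Let `A` be the ring of polynomials over `𝔽_p` in the monomials `x^γ`, where `γ` runs over the
finitely supported sequences of rationals each of whose entries is `0` or at least `p`.  Its fraction
field `K` is perfect, the series `ℓ = x_0 X_0 + x_1 X_1 + ...` does not have bounded denominators, but
its `p`-th power does.
-/

set_option autoImplicit false

universe u v w

namespace Pool.Agent.Results.MP_5fe329_al.PthPower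

section defs

/-- The series `f` has bounded degree: its coefficients vanish in all degrees greater than some
`D`. -/
def Bdd {K : Type v} [Field K] (f : MvPowerSeries ℕ K) : Prop :=
  ∃ D : ℕ, ∀ m : ℕ →₀ ℕ, D < m.degree → MvPowerSeries.coeff m f = 0

lemma Bdd.mul {K : Type v} [Field K] {f g : MvPowerSeries ℕ K} (hf : Bdd f) (hg : Bdd g) :
    Bdd (f * g) := by
  classical
  obtain ⟨D, hD⟩ := hf
  obtain ⟨E, hE⟩ := hg
  refine ⟨D + E, fun m hm => ?_⟩
  rw [MvPowerSeries.coeff_mul]
  refine Finset.sum_eq_zero fun ab hab => ?_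
  rw [Finset.HasAntidiagonal.mem_antidiagonal] at hab
  have h1 : ab.1.degree + ab.2.degree = m.degree := by rw [← hab, map_add]
  rcases Nat.lt_or_ge D ab.1.degree with h | h
  · rw [hD _ h, zero_mul]
  · rw [hE _ (by omega), mul_zero]

lemma Bdd.one {K : Type v} [Field K] : Bdd (1 : MvPowerSeries ℕ K) := by
  classical
  refine ⟨0, fun m hm => ?_⟩
  rw [MvPowerSeries.coeff_one, if_neg]
  rintro rfl
  simp at hm

lemma Bdd.add {K : Type v} [Field K] {f g : MvPowerSeries ℕ K} (hf : Bdd f) (hg : Bdd g) :
    Bdd (f + g) := by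
  obtain ⟨D, hD⟩ := hf
  obtain ⟨E, hE⟩ := hg
  refine ⟨max D E, fun m hm => ?_⟩
  rw [map_add, hD m (lt_of_le_of_lt (le_max_left _ _) hm),
    hE m (lt_of_le_of_lt (le_max_right _ _) hm), add_zero]

lemma Bdd.zero {K : Type v} [Field K] : Bdd (0 : MvPowerSeries ℕ K) :=
  ⟨0, fun _ _ => map_zero _⟩

lemma Bdd.neg {K : Type v} [Field K] {f : MvPowerSeries ℕ K} (hf : Bdd f) : Bdd (-f) := by
  obtain ⟨D, hD⟩ := hf
  exact ⟨D, fun m hm => by rw [map_neg, hD m hm, neg_zero]⟩

/-- The ring `R`: the power series over `K` in the variables `X_0, X_1, ...` of bounded degree, i.e.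
the finite sums of (possibly infinite) formal `K`-linear combinations of monomials of degree `d`. -/
def bounded (K : Type v) [Field K] : Subring (MvPowerSeries ℕ K) where
  carrier := {f | Bdd f}
  mul_mem' := Bdd.mul
  one_mem' := Bdd.one
  add_mem' := Bdd.add
  zero_mem' := Bdd.zero
  neg_mem' := Bdd.neg

variable (A : Type u) {K : Type v} [CommRing A] [IsDomain A] [Field K] [Algebra A K]

/-- The series `f` has bounded denominators: for some nonzero `a` in `A` all the coefficients of
`a f` are in `A`. -/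
def BddDenominators (f : bounded K) : Prop :=
  ∃ a : A, a ≠ 0 ∧ ∀ m : ℕ →₀ ℕ, ∃ b : A,
    algebraMap A K b = algebraMap A K a * MvPowerSeries.coeff m f.1

variable {A}

lemma BddDenominators.mul {f g : bounded K} (hf : BddDenominators A f)
    (hg : BddDenominators A g) : BddDenominators A (f * g) := by
  classical
  obtain ⟨a, ha, h⟩ := hf
  obtain ⟨b, hb, h'⟩ := hg
  refine ⟨a * b, mul_ne_zero ha hb, fun m => ?_⟩
  choose r hr using h
  choose s hs using h'
  refine ⟨∑ q ∈ Finset.HasAntidiagonal.antidiagonal m, r q.1 * s q.2, ?_⟩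
  rw [map_sum, Subring.coe_mul, MvPowerSeries.coeff_mul, Finset.mul_sum]
  refine Finset.sum_congr rfl fun q _ => ?_
  rw [map_mul, map_mul, hr, hs]
  ring

lemma BddDenominators.one : BddDenominators A (1 : bounded K) := by
  classical
  refine ⟨1, one_ne_zero, fun m => ⟨if m = 0 then 1 else 0, ?_⟩⟩
  rw [Subring.coe_one, MvPowerSeries.coeff_one, map_one, one_mul]
  split_ifs <;> simp

lemma BddDenominators.add {f g : bounded K} (hf : BddDenominators A f)
    (hg : BddDenominators A g) : BddDenominators A (f + g) := by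
  obtain ⟨a, ha, h⟩ := hf
  obtain ⟨b, hb, h'⟩ := hg
  refine ⟨a * b, mul_ne_zero ha hb, fun m => ?_⟩
  obtain ⟨r, hr⟩ := h m
  obtain ⟨s, hs⟩ := h' m
  refine ⟨b * r + a * s, ?_⟩
  rw [map_add, map_mul, map_mul, hr, hs, Subring.coe_add, map_add, map_mul]
  ring

lemma BddDenominators.zero : BddDenominators A (0 : bounded K) :=
  ⟨1, one_ne_zero, fun m => ⟨0, by simp⟩⟩

lemma BddDenominators.neg {f : bounded K} (hf : BddDenominators A f) :
    BddDenominators A (-f) := by
  obtain ⟨a, ha, h⟩ := hf
  refine ⟨a, ha, fun m => ?_⟩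
  obtain ⟨r, hr⟩ := h m
  exact ⟨-r, by rw [map_neg, hr, Subring.coe_neg, map_neg, mul_neg]⟩

variable (A K)

/-- The subring `R^♭` of `R` of the elements with bounded denominators. -/
def flat : Subring (bounded K) where
  carrier := {f | BddDenominators A f}
  mul_mem' := BddDenominators.mul
  one_mem' := BddDenominators.one
  add_mem' := BddDenominators.add
  zero_mem' := BddDenominators.zero
  neg_mem' := BddDenominators.neg

/-- `R` is a polynomial algebra over `R^♭`, in some set of variables (in the universe `w`). -/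
def IsPolynomialOverFlat : Prop :=
  ∃ ι : Type w, Nonempty (bounded K ≃ₐ[flat A K] MvPolynomial ι (flat A K))

end defs

/-- If `ℓ^n ∈ F` but `ℓ ∉ F` for a subring `F` of a domain `R` then `R` is not a polynomial
algebra over `F`. -/
lemma not_polynomial {R : Type u} [CommRing R] [IsDomain R] (F : Subring R) {ℓ : R} {n : ℕ}
    (hn : n ≠ 0) (h1 : ℓ ^ n ∈ F) (h2 : ℓ ∉ F) (ι : Type w) :
    IsEmpty (R ≃ₐ[F] MvPolynomial ι F) := by
  constructor
  intro e
  have h0 : ℓ ≠ 0 := fun h => h2 (by rw [h]; exact F.zero_mem)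
  have hne : (⟨ℓ ^ n, h1⟩ : F) ≠ 0 := fun h => pow_ne_zero n h0 (congrArg Subtype.val h)
  have h3 : e ℓ ^ n = MvPolynomial.C (⟨ℓ ^ n, h1⟩ : F) := by
    rw [← map_pow]
    exact e.commutes (⟨ℓ ^ n, h1⟩ : F)
  have h4 : e ℓ ∣ MvPolynomial.C (⟨ℓ ^ n, h1⟩ : F) := by
    rw [← h3]; exact dvd_pow_self _ hn
  obtain ⟨b, -, hb⟩ := (MvPolynomial.dvd_C_iff_exists hne).1 h4
  have h5 : ℓ = b.1 := by
    have h6 : e ℓ = e (algebraMap F R b) := by
      rw [hb]; exact (e.commutes b).symm
    exact e.injective h6
  exact h2 (by rw [h5]; exact b.2)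

section ring

variable (p : ℕ)

/-- The exponents. -/
abbrev G := ℕ →₀ ℚ

/-- The group ring of the group of exponents. -/
abbrev B := AddMonoidAlgebra (ZMod p) G

/-- The exponents all of whose entries are `0` or at least `p`. -/
def Sig (γ : G) : Prop := ∀ i, γ i = 0 ∨ (p : ℚ) ≤ γ i

lemma Sig.zero : Sig p 0 := fun _ => Or.inl rfl

variable {p} in
lemma Sig.add {γ δ : G} (h : Sig p γ) (h' : Sig p δ) : Sig p (γ + δ) := by
  intro i
  rw [Finsupp.add_apply]
  have hp0 : (0 : ℚ) ≤ p := by positivity
  rcases h i with h1 | h1 <;> rcases h' i with h2 | h2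
  · left; rw [h1, h2, add_zero]
  · right; rw [h1, zero_add]; exact h2
  · right; rw [h2, add_zero]; exact h1
  · right; linarith

lemma exists_delta (γ : G) : ∃ δ, Sig p δ ∧ Sig p (γ + δ) := by
  have hp0 : (0 : ℚ) ≤ p := by positivity
  refine ⟨γ.mapRange (fun x => if x = 0 then 0 else (p : ℚ) + |x|) (by simp), ?_, ?_⟩
  · intro i
    rw [Finsupp.mapRange_apply]
    split_ifs with h
    · left; rfl
    · right
      have := abs_nonneg (γ i)
      linarith
  · intro i
    rw [Finsupp.add_apply, Finsupp.mapRange_apply]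
    split_ifs with h
    · left; rw [h, add_zero]
    · right
      have := neg_abs_le (γ i)
      linarith

lemma exists_delta' (s : Finset G) : ∃ δ, Sig p δ ∧ ∀ γ ∈ s, Sig p (γ + δ) := by
  classical
  induction s using Finset.induction_on with
  | empty => exact ⟨0, Sig.zero p, by simp⟩
  | insert γ s _ ih =>
    obtain ⟨δ, h1, h2⟩ := ih
    obtain ⟨δ', h3, h4⟩ := exists_delta p (γ + δ)
    refine ⟨δ + δ', h1.add h3, ?_⟩
    intro γ' hγ'
    rw [← add_assoc]
    rcases Finset.mem_insert.1 hγ' with rfl | h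
    · exact h4
    · exact (h2 γ' h).add h3

variable [hp : Fact p.Prime]

/-- The ring `A`: the elements of the group ring supported on the exponents all of whose entries
are `0` or at least `p`. -/
def AA : Subring (B p) where
  carrier := {f | ∀ γ ∈ f.coeff.support, Sig p γ}
  mul_mem' := by
    classical
    intro f g hf hg γ hγ
    have h1 := AddMonoidAlgebra.support_coeff_mul_subset f g hγ
    obtain ⟨a, ha, b, hb, rfl⟩ := Finset.mem_add.1 h1
    exact (hf a ha).add (hg b hb)
  one_mem' := by
    intro γ hγ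
    have h1 := AddMonoidAlgebra.support_coeff_one_subset hγ
    rw [Finset.mem_zero] at h1
    rw [h1]; exact Sig.zero p
  add_mem' := by
    classical
    intro f g hf hg γ hγ
    rw [AddMonoidAlgebra.coeff_add] at hγ
    rcases Finset.mem_union.1 (Finsupp.support_add hγ) with h | h
    · exact hf γ h
    · exact hg γ h
  zero_mem' := by
    intro γ hγ
    simp at hγ
  neg_mem' := by
    intro f hf γ hγ
    rw [AddMonoidAlgebra.coeff_neg, Finsupp.support_neg] at hγ
    exact hf γ hγ

/-- The fraction field. -/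
abbrev KK := FractionRing (B p)

instance : CharP (B p) p := charP_of_injective_algebraMap (algebraMap (ZMod p) (B p)).injective p

instance : CharP (KK p) p :=
  charP_of_injective_algebraMap (IsFractionRing.injective (B p) (KK p)) p

lemma frob_surj_B (b : B p) : ∃ c : B p, c ^ p = b := by
  induction b using AddMonoidAlgebra.induction_linear with
  | zero => exact ⟨0, zero_pow hp.out.ne_zero⟩
  | add x y hx hy =>
    obtain ⟨c, rfl⟩ := hx
    obtain ⟨d, rfl⟩ := hy
    exact ⟨c + d, add_pow_char _ _ _⟩
  | single γ r =>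
    refine ⟨AddMonoidAlgebra.single ((p : ℚ)⁻¹ • γ) r, ?_⟩
    rw [AddMonoidAlgebra.single_pow, ZMod.pow_card]
    congr 1
    ext i
    have : (p : ℚ) ≠ 0 := Nat.cast_ne_zero.2 hp.out.ne_zero
    simp [this]

instance : PerfectRing (KK p) p := by
  refine PerfectRing.ofSurjective _ _ fun z => ?_
  obtain ⟨x, y, hy, rfl⟩ := IsFractionRing.div_surjective (A := B p) z
  obtain ⟨c, rfl⟩ := frob_surj_B p x
  obtain ⟨d, rfl⟩ := frob_surj_B p y
  refine ⟨algebraMap _ _ c / algebraMap _ _ d, ?_⟩
  rw [frobenius_def, div_pow, map_pow, map_pow]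

lemma mul_single_mem {b : B p} {δ : G} (h : ∀ γ ∈ b.coeff.support, Sig p (γ + δ)) :
    b * AddMonoidAlgebra.single δ 1 ∈ AA p := by
  classical
  intro γ hγ
  have h1 := AddMonoidAlgebra.support_coeff_mul_single_subset b 1 δ hγ
  obtain ⟨γ', hγ', rfl⟩ := Finset.mem_image.1 h1
  exact h γ' hγ'

lemma single_ne_zero' (δ : G) : (AddMonoidAlgebra.single δ 1 : B p) ≠ 0 := by
  intro h
  have := congrArg (fun x : B p => x.coeff δ) h
  simp at this

instance : IsFractionRing (AA p) (KK p) := by
  have hinj : Function.Injective (algebraMap (AA p) (KK p)) := by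
    intro x y hxy
    exact Subtype.ext (IsFractionRing.injective (B p) (KK p) hxy)
  have : FaithfulSMul (AA p) (KK p) := (faithfulSMul_iff_algebraMap_injective _ _).2 hinj
  refine IsFractionRing.of_field (AA p) (KK p) fun z => ?_
  classical
  obtain ⟨x, y, hy, rfl⟩ := IsFractionRing.div_surjective (A := B p) z
  obtain ⟨δ, -, h2⟩ := exists_delta' p (x.coeff.support ∪ y.coeff.support)
  have hx : x * AddMonoidAlgebra.single δ 1 ∈ AA p :=
    mul_single_mem p (b := x) (δ := δ) fun γ hγ => h2 γ (Finset.mem_union_left _ hγ)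
  have hy' : y * AddMonoidAlgebra.single δ 1 ∈ AA p :=
    mul_single_mem p (b := y) (δ := δ) fun γ hγ => h2 γ (Finset.mem_union_right _ hγ)
  have hne : algebraMap (B p) (KK p) (AddMonoidAlgebra.single δ 1) ≠ 0 := by
    intro h
    exact single_ne_zero' p δ (IsFractionRing.injective (B p) (KK p) (h.trans (map_zero _).symm))
  refine ⟨(⟨_, hx⟩ : AA p), (⟨_, hy'⟩ : AA p), ?_⟩
  have h3 : ∀ (b : B p) (hb : b ∈ AA p), algebraMap (AA p) (KK p) ⟨b, hb⟩ =
      algebraMap (B p) (KK p) b := fun _ _ => rfl
  rw [h3, h3, map_mul, map_mul, mul_div_mul_right _ _ hne]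

/-- The exponent of a monomial. -/
noncomputable def ex (m : ℕ →₀ ℕ) : G := m.mapRange (Nat.cast) Nat.cast_zero

open Classical in
/-- The series `ℓ = x_0 X_0 + x_1 X_1 + ...`. -/
noncomputable def ellS : MvPowerSeries ℕ (KK p) := fun m =>
  if m.degree = 1 then algebraMap (B p) (KK p) (AddMonoidAlgebra.single (ex m) 1) else 0

lemma coeff_ellS (m : ℕ →₀ ℕ) : MvPowerSeries.coeff m (ellS p) =
    if m.degree = 1 then algebraMap (B p) (KK p) (AddMonoidAlgebra.single (ex m) 1) else 0 :=
  rfl

/-- The series `ℓ` as an element of `R`. -/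
noncomputable def ell : bounded (KK p) := ⟨ellS p, 1, fun m hm => by
  rw [coeff_ellS, if_neg (by omega)]⟩

lemma ell_pow_mem : ell p ^ p ∈ flat (AA p) (KK p) := by
  refine ⟨1, one_ne_zero, fun m => ?_⟩
  have hp0 : p ≠ 0 := hp.out.ne_zero
  rw [map_one, one_mul]
  have h1 : ((ell p ^ p : bounded (KK p)) : MvPowerSeries ℕ (KK p)) =
      ((ellS p).expand p hp0).map (frobenius (KK p) p) := by
    rw [MvPowerSeries.map_frobenius_expand]
    rfl
  rw [h1, MvPowerSeries.coeff_map]
  by_cases hm : ∀ i, p ∣ m i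
  · obtain ⟨m', rfl⟩ : ∃ m', m = p • m' := by
      refine ⟨m.mapRange (fun n => n / p) (Nat.zero_div p), ?_⟩
      ext i
      simp [Nat.mul_div_cancel' (hm i)]
    rw [MvPowerSeries.coeff_expand_smul, coeff_ellS]
    split_ifs with h
    · refine ⟨⟨AddMonoidAlgebra.single (ex (p • m')) 1, ?_⟩, ?_⟩
      · intro γ hγ
        have h2 : γ = ex (p • m') := by
          have h3 := Finsupp.support_single_subset hγ
          exact Finset.mem_singleton.1 h3
        rw [h2]
        intro i
        have h4 : ex (p • m') i = (p : ℚ) * (m' i : ℚ) := by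
          simp [ex]
        rw [h4]
        rcases Nat.eq_zero_or_pos (m' i) with h5 | h5
        · left; rw [h5]; simp
        · right
          have h6 : (1 : ℚ) ≤ (m' i : ℚ) := by exact_mod_cast h5
          have h7 : (0 : ℚ) ≤ p := by positivity
          nlinarith
      · show algebraMap (B p) (KK p) (AddMonoidAlgebra.single (ex (p • m')) 1) = _
        rw [frobenius_def, ← map_pow, AddMonoidAlgebra.single_pow, one_pow]
        congr 2
        ext i
        simp [ex]
    · exact ⟨0, by rw [map_zero, map_zero]⟩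
  · push Not at hm
    obtain ⟨i, hi⟩ := hm
    refine ⟨0, ?_⟩
    rw [MvPowerSeries.coeff_expand_of_not_dvd p hp0 _ hi, map_zero, map_zero]

lemma ell_not_mem : ell p ∉ flat (AA p) (KK p) := by
  classical
  rintro ⟨a, ha, h⟩
  have ha' : a.1 ≠ 0 := fun h' => ha (Subtype.ext h')
  have hsupp : a.1.coeff.support.Nonempty := by
    rw [Finsupp.support_nonempty_iff]
    intro h'
    exact ha' (AddMonoidAlgebra.coeff_eq_zero.1 h')
  obtain ⟨γ, hγ⟩ := hsupp
  obtain ⟨i, hi⟩ := Infinite.exists_notMem_finset γ.support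
  obtain ⟨b, hb⟩ := h (Finsupp.single i 1)
  have h1 : MvPowerSeries.coeff (Finsupp.single i 1) (ell p).1 =
      algebraMap (B p) (KK p) (AddMonoidAlgebra.single (ex (Finsupp.single i 1)) 1) := by
    show MvPowerSeries.coeff (Finsupp.single i 1) (ellS p) = _
    rw [coeff_ellS, if_pos (by simp)]
  rw [h1] at hb
  have h2 : b.1 = a.1 * AddMonoidAlgebra.single (ex (Finsupp.single i 1)) 1 := by
    apply IsFractionRing.injective (B p) (KK p)
    rw [map_mul]
    exact hb
  have h3 : γ + ex (Finsupp.single i 1) ∈ b.1.coeff.support := by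
    rw [h2, AddMonoidAlgebra.support_coeff_mul_single _ _ (by simp)]
    exact Finset.mem_map.2 ⟨γ, hγ, rfl⟩
  have h4 := b.2 _ h3 i
  have h5 : (γ + ex (Finsupp.single i 1)) i = 1 := by
    rw [Finsupp.add_apply, Finsupp.notMem_support_iff.1 hi]
    simp [ex]
  rw [h5] at h4
  have h6 : (1 : ℚ) < p := by exact_mod_cast hp.out.one_lt
  rcases h4 with h4 | h4
  · exact one_ne_zero h4
  · linarith

end ring

/-- **Counterexample.**  For every prime `p` there is an integral domain `A` of characteristic `p`
with perfect fraction field `K` such that the ring `R` of series of bounded degree over `K` is not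
isomorphic, as an algebra over the subring `R^♭` of series with bounded denominators, to a polynomial
ring over `R^♭` in any set of variables. -/
theorem result (p : ℕ) (_ : p.Prime) :
    ∃ (A : Type) (_ : CommRing A) (_ : IsDomain A) (K : Type) (_ : Field K) (_ : Algebra A K),
      IsFractionRing A K ∧ PerfectField K ∧ CharP A p ∧ ¬ IsPolynomialOverFlat.{0, 0, w} A K := by
  have hp : Fact p.Prime := ⟨‹_›⟩
  have : IsDomain (MvPowerSeries ℕ (KK p)) := NoZeroDivisors.to_isDomain _
  refine ⟨AA p, inferInstance, inferInstance, KK p, inferInstance, inferInstance, inferInstance,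
    PerfectRing.toPerfectField (KK p) p, inferInstance, ?_⟩
  rintro ⟨ι, ⟨e⟩⟩
  exact (not_polynomial (flat (AA p) (KK p)) hp.out.ne_zero (ell_pow_mem p)
    (ell_not_mem p) ι).false e

end Pool.Agent.Results.MP_5fe329_al.PthPower
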